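import Pool.Agent.N682.MS.Stm
import Pool.Agent.W683.RC.Bas

/-!
# Project MS, task SPEC (helper221 for helper682): the spectral projection of the averaged matrix
-/

set_option autoImplicit false

namespace Pool.Agent.N221.MS

open Matrix Filter Topology
open Pool.Agent.W661.RC (HasT Mk Smo Mt hs tr)
open Pool.Agent.W683.RC
open Pool.Agent.N682.MS

noncomputable section

/-- trace of a diagonal form -/
lemma tr_diag {d : ℕ} (a : Fin d → ℝ) (w : Mt d) :
    tr (wᴴ * (diagonal (fun i => (a i : ℂ)) * w)) = ∑ i, a i * ∑ j, ‖w i j‖ ^ 2 := by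
  unfold Pool.Agent.W661.RC.tr
  have h0 : ∀ j, (wᴴ * (diagonal (fun i => (a i : ℂ)) * w)) j j =
      ∑ i, star (w i j) * ((a i : ℂ) * w i j) := by
    intro j
    rw [Matrix.mul_apply]
    simp only [Matrix.diagonal_mul, Matrix.conjTranspose_apply]
  simp only [Matrix.trace, Matrix.diag_apply, h0, Complex.re_sum]
  rw [Finset.sum_comm]
  refine Finset.sum_congr rfl fun i _ => ?_
  rw [Finset.mul_sum]
  refine Finset.sum_congr rfl fun j _ => ?_
  have : star (w i j) * ((a i : ℂ) * w i j) = ((a i * ‖w i j‖ ^ 2 : ℝ) : ℂ) := by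
    have h1 : star (w i j) * w i j = ((‖w i j‖ ^ 2 : ℝ) : ℂ) := by
      have := Complex.conj_mul' (w i j)
      rw [Complex.ofReal_pow]
      exact this
    calc star (w i j) * ((a i : ℂ) * w i j) = (a i : ℂ) * (star (w i j) * w i j) := by ring
      _ = _ := by rw [h1]; push_cast; ring
  rw [this, Complex.ofReal_re]

/-- the averaged matrix -/
def av {k d : ℕ} (U : Fin k → Matrix.unitaryGroup (Fin d) ℂ) : Mt d :=
  (1 / 2 : ℂ) • 1 + (1 / (2 * (2 * k + 1)) : ℂ) • (1 + ∑ s, ((U s).val + (U s).valᴴ))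

lemma av_herm {k d : ℕ} (U : Fin k → Matrix.unitaryGroup (Fin d) ℂ) : (av U).IsHermitian := by
  unfold av Matrix.IsHermitian
  rw [conjTranspose_add, conjTranspose_smul, conjTranspose_smul, conjTranspose_one,
    conjTranspose_add, conjTranspose_one, conjTranspose_sum]
  have e1 : star (1 / 2 : ℂ) = 1 / 2 := by simp
  have e2 : star (1 / (2 * (2 * (k : ℂ) + 1)) : ℂ) = 1 / (2 * (2 * k + 1)) := by simp
  rw [e1, e2]
  congr 3
  refine Finset.sum_congr rfl fun s _ => ?_
  rw [conjTranspose_add, conjTranspose_conjTranspose, add_comm]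

lemma av_Mk {k d : ℕ} (U : Fin k → Matrix.unitaryGroup (Fin d) ℂ) :
    Matrix.toEuclideanCLM (𝕜 := ℂ) (av U) = Mk (lf U) := by
  unfold av Mk
  rw [map_add, map_smul, map_smul, map_add, map_one, map_sum]
  congr 3
  refine Finset.sum_congr rfl fun s _ => ?_
  rw [map_add]
  have e1 : ((lf U (FreeGroup.of s) : unitary _) :
      EuclideanSpace ℂ (Fin d) →L[ℂ] EuclideanSpace ℂ (Fin d)) =
      Matrix.toEuclideanCLM (𝕜 := ℂ) (U s).val := by
    simp only [lf, MonoidHom.comp_apply, FreeGroup.lift_apply_of]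
    rfl
  have e2 : ((lf U (FreeGroup.of s)⁻¹ : unitary _) :
      EuclideanSpace ℂ (Fin d) →L[ℂ] EuclideanSpace ℂ (Fin d)) =
      Matrix.toEuclideanCLM (𝕜 := ℂ) (U s).valᴴ := by
    have h3 : FreeGroup.lift U (FreeGroup.of s)⁻¹ = (U s)⁻¹ := by
      rw [map_inv, FreeGroup.lift_apply_of]
    simp only [lf, MonoidHom.comp_apply, h3]
    rfl
  rw [e1, e2]

/-- the identity for the displacement -/
lemma av_form {k d : ℕ} (U : Fin k → Matrix.unitaryGroup (Fin d) ℂ) (y : Mt d) :
    1 / (2 * (2 * (k : ℝ) + 1)) * ∑ s, hs (((U s).val - 1) * y) = tr (yᴴ * ((1 - av U) * y)) := by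
  have h1 : ∀ s, hs (((U s).val - 1) * y) = tr (yᴴ * ((2 - (U s).val - (U s).valᴴ) * y)) := by
    intro s
    rw [hs_eq_tr, conjTranspose_mul, conjTranspose_sub, conjTranspose_one]
    congr 1
    have h2 : (U s).valᴴ * (U s).val = 1 := (Unitary.mem_iff.1 (U s).2).1
    have h3 : ((U s).valᴴ - 1) * ((U s).val - 1) = 2 - (U s).val - (U s).valᴴ := by
      rw [sub_mul, mul_sub, h2, mul_one, one_mul]
      have : (2 : Mt d) = 1 + 1 := by norm_num
      rw [this]
      abel
    rw [← h3]
    simp only [Matrix.mul_assoc]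
  simp only [h1]
  have h4 : (1 : Mt d) - av U =
      ((1 / (2 * (2 * (k : ℝ) + 1)) : ℝ) : ℂ) • ∑ s, (2 - (U s).val - (U s).valᴴ) := by
    have hk : (2 * (k : ℂ) + 1) ≠ 0 := by
      have : (0 : ℝ) < 2 * (k : ℝ) + 1 := by positivity
      have h5 : ((2 * (k : ℝ) + 1 : ℝ) : ℂ) ≠ 0 := by exact_mod_cast this.ne'
      push_cast at h5
      exact h5
    unfold av
    have h6 : ∑ s, (2 - (U s).val - (U s).valᴴ) = (2 * (k : ℂ)) • (1 : Mt d) -
        ∑ s, ((U s).val + (U s).valᴴ) := by
      have : ∀ s, (2 : Mt d) - (U s).val - (U s).valᴴ = (2 : ℂ) • (1 : Mt d) -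
          ((U s).val + (U s).valᴴ) := by
        intro s
        have : (2 : Mt d) = (2 : ℂ) • (1 : Mt d) := by
          rw [two_smul]; norm_num
        rw [this]; abel
      simp only [this]
      rw [Finset.sum_sub_distrib, Finset.sum_const, Finset.card_univ, Fintype.card_fin,
        ← Nat.cast_smul_eq_nsmul ℂ, smul_smul, mul_comm]
    rw [h6]
    push_cast
    rw [smul_sub, smul_smul, smul_add]
    have h7 : (1 : Mt d) = (1 : ℂ) • (1 : Mt d) := (one_smul _ _).symm
    have h8 : (1 / (2 * (2 * (k : ℂ) + 1)) * (2 * k)) = 1 - 1 / 2 - 1 / (2 * (2 * k + 1)) := by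
      field_simp
      ring
    rw [h8, sub_smul, sub_smul, one_smul]
    abel
  rw [h4, smul_mul_assoc, mul_smul_comm, tr_smul]
  congr 1
  rw [Finset.sum_mul, Finset.mul_sum, tr_sum]

theorem t_spec : S_SPEC := by
  classical
  intro k κ ε hκ hε
  set ck : ℝ := 1 / (2 * (2 * (k : ℝ) + 1)) with hck
  have hck0 : 0 < ck := by positivity
  have hck1 : ck ≤ 1 := by
    rw [hck, div_le_one (by positivity)]
    have : (0 : ℝ) ≤ k := Nat.cast_nonneg k
    linarith
  refine ⟨ck * ε, by positivity, ?_⟩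
  intro d U hG
  have hm := av_herm U
  set lam := hm.eigenvalues with hlam
  set V : Mt d := (hm.eigenvectorUnitary : Mt d) with hV
  have hV1 : Vᴴ * V = 1 := (Unitary.mem_iff.1 hm.eigenvectorUnitary.2).1
  have hV2 : V * Vᴴ = 1 := (Unitary.mem_iff.1 hm.eigenvectorUnitary.2).2
  have hspec : av U = V * diagonal (fun i => (lam i : ℂ)) * Vᴴ := hm.spectral_theorem
  have hdich : ∀ i, lam i ≤ 1 - κ ∨ 1 - ck * ε ≤ lam i := by
    intro i
    refine hG (lam i) (hm.eigenvectorBasis i) (hm.eigenvectorBasis.orthonormal.ne_zero i) ?_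
    rw [← av_Mk]
    have h1 := hm.mulVec_eigenvectorBasis i
    apply PiLp.ext
    intro j
    have h2 := congrFun h1 j
    simp only [Pi.smul_apply] at h2
    exact h2
  set c : Fin d → ℝ := fun i => if lam i ≤ 1 - κ then 1 else 0 with hc
  set Dc : Mt d := diagonal (fun i => (c i : ℂ)) with hDc
  have hDcc : Dc * Dc = Dc := by
    rw [hDc, diagonal_mul_diagonal]
    congr 1
    funext i
    simp only [hc]
    split_ifs <;> simp
  have hDch : Dcᴴ = Dc := by
    rw [hDc, diagonal_conjTranspose]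
    congr 1
    funext i
    simp
  set q : Mt d := V * Dc * Vᴴ with hq
  have hqh : qᴴ = q := by
    rw [hq, conjTranspose_mul, conjTranspose_mul, conjTranspose_conjTranspose, hDch,
      Matrix.mul_assoc]
  have hqq : q * q = q := by
    calc q * q = V * (Dc * (Vᴴ * V) * Dc) * Vᴴ := by rw [hq]; simp only [Matrix.mul_assoc]
      _ = q := by rw [hV1, Matrix.mul_one, hDcc]
  -- the form in the eigenbasis
  have hform : ∀ y : Mt d, ck * ∑ s, hs (((U s).val - 1) * y) =
      ∑ i, (1 - lam i) * ∑ j, ‖(Vᴴ * y) i j‖ ^ 2 := by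
    intro y
    rw [hck, av_form, ← tr_diag]
    congr 1
    have h1 : (1 : Mt d) - av U = V * diagonal (fun i => ((1 - lam i : ℝ) : ℂ)) * Vᴴ := by
      have h2 : diagonal (fun i => ((1 - lam i : ℝ) : ℂ)) =
          1 - diagonal (fun i => (lam i : ℂ)) := by
        rw [← diagonal_one, diagonal_sub]
        congr 1
        funext i
        push_cast
        rfl
      rw [h2, mul_sub, sub_mul, Matrix.mul_one, hV2, ← hspec]
    rw [h1, conjTranspose_mul, conjTranspose_conjTranspose]
    simp only [Matrix.mul_assoc]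
  have hhs : ∀ w : Mt d, hs w = ∑ i, ∑ j, ‖w i j‖ ^ 2 := fun w => rfl
  have hVhs : ∀ w : Mt d, hs (Vᴴ * w) = hs w := fun w =>
    hs_isom_mul (by rw [conjTranspose_conjTranspose]; exact hV2) w
  refine ⟨q, hqh, hqq, ?_, ?_⟩
  · intro s x
    have h1 : hs (((U s).val - 1) * ((1 - q) * x)) ≤
        ∑ s, hs (((U s).val - 1) * ((1 - q) * x)) :=
      Finset.single_le_sum (f := fun s => hs (((U s).val - 1) * ((1 - q) * x)))
        (fun s _ => hs_nonneg _) (Finset.mem_univ s)
    have h2 : ck * ∑ s, hs (((U s).val - 1) * ((1 - q) * x)) ≤ ck * (ε * hs x) := by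
      rw [hform]
      have e1 : Vᴴ * ((1 - q) * x) = (1 - Dc) * (Vᴴ * x) := by
        have : Vᴴ * q = Dc * Vᴴ := by
          rw [hq]
          calc Vᴴ * (V * Dc * Vᴴ) = (Vᴴ * V) * Dc * Vᴴ := by simp only [Matrix.mul_assoc]
            _ = Dc * Vᴴ := by rw [hV1, Matrix.one_mul]
        rw [← Matrix.mul_assoc, mul_sub, Matrix.mul_one, this, ← Matrix.mul_assoc]
        congr 1
        rw [sub_mul, Matrix.one_mul]
      have e2 : ∀ i j, (Vᴴ * ((1 - q) * x)) i j = (1 - (c i : ℂ)) * (Vᴴ * x) i j := by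
        intro i j
        rw [e1, sub_mul, Matrix.one_mul, Matrix.sub_apply, hDc, diagonal_mul]
        ring
      calc ∑ i, (1 - lam i) * ∑ j, ‖(Vᴴ * ((1 - q) * x)) i j‖ ^ 2
          ≤ ∑ i, ck * ε * ∑ j, ‖(Vᴴ * x) i j‖ ^ 2 := by
            refine Finset.sum_le_sum fun i _ => ?_
            simp only [e2]
            by_cases hi : lam i ≤ 1 - κ
            · have : c i = 1 := by simp only [hc, if_pos hi]
              rw [this]
              simp only [Complex.ofReal_one, sub_self, zero_mul, norm_zero, ne_eq,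
                OfNat.ofNat_ne_zero, not_false_eq_true, zero_pow, Finset.sum_const_zero, mul_zero]
              positivity
            · have : c i = 0 := by simp only [hc, if_neg hi]
              rw [this]
              simp only [Complex.ofReal_zero, sub_zero, one_mul]
              have h3 : 1 - lam i ≤ ck * ε := by
                rcases hdich i with h | h
                · exact absurd h hi
                · linarith
              gcongr
        _ = ck * (ε * hs x) := by
            rw [← Finset.mul_sum, ← hhs, hVhs, mul_assoc]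
    have h3 := le_of_mul_le_mul_left h2 hck0
    exact h1.trans h3
  · have h2 : ck * (κ * hs q) ≤ ck * ∑ s, hs (((U s).val - 1) * q) := by
      rw [hform]
      have e1 : Vᴴ * q = Dc * Vᴴ := by
        rw [hq]
        calc Vᴴ * (V * Dc * Vᴴ) = (Vᴴ * V) * Dc * Vᴴ := by simp only [Matrix.mul_assoc]
          _ = Dc * Vᴴ := by rw [hV1, Matrix.one_mul]
      have e2 : ∀ i j, (Vᴴ * q) i j = (c i : ℂ) * Vᴴ i j := by
        intro i j
        rw [e1, hDc, diagonal_mul]
      calc ck * (κ * hs q) ≤ 1 * (κ * hs q) := by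
            have : 0 ≤ κ * hs q := mul_nonneg hκ.le (hs_nonneg _)
            gcongr
        _ = ∑ i, κ * ∑ j, ‖(Vᴴ * q) i j‖ ^ 2 := by
            rw [← Finset.mul_sum, ← hhs, hVhs, one_mul]
        _ ≤ ∑ i, (1 - lam i) * ∑ j, ‖(Vᴴ * q) i j‖ ^ 2 := by
            refine Finset.sum_le_sum fun i _ => ?_
            simp only [e2]
            by_cases hi : lam i ≤ 1 - κ
            · have h3 : κ ≤ 1 - lam i := by linarith
              gcongr
            · have : c i = 0 := by simp only [hc, if_neg hi]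
              rw [this]
              simp
    exact le_of_mul_le_mul_left h2 hck0

end

end Pool.Agent.N221.MS
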